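import Pool.Agent.Work.MP_6ac3f6_an.Main

set_option autoImplicit false

namespace Pool.Agent.Work.MP_6ac3f6_an.Parked.LowerOne

open Pool.Agent.Work.MP_6ac3f6_an

/-- The best possible bound `A*` for the growth index on the class satisfies `A* ≥ 1`. -/
theorem result : (1 : EReal) ≤ sSup (alpha '' {f : ℂ → ℂ | InClass f}) :=
  one_le_sup

end Pool.Agent.Work.MP_6ac3f6_an.Parked.LowerOne
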